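import Pool.Agent.H.MP_3ce60b_pr.D

namespace Pool.Agent.H.MP_0d3db7_pr
open MeasureTheory Finset Pool.Agent.H.MP_3ce60b_pr

/-- the fair coin on Bool -/
noncomputable def coin : Measure Bool := (1 / 2 : ENNReal) • (Measure.dirac true + Measure.dirac false)

instance : IsProbabilityMeasure coin := ⟨by
  simp only [coin, Measure.smul_apply, Measure.add_apply, measure_univ, smul_eq_mul]
  rw [one_add_one_eq_two, ENNReal.div_mul_cancel] <;> simp⟩

abbrev Om := ℤ × ℕ → Bool

noncomputable def PP : Measure Om := Measure.infinitePi fun _ => coin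

instance : IsProbabilityMeasure PP := by unfold PP; infer_instance

def fl (c : ℤ × ℕ) (ω : Om) : Om := fun d => if d = c then !ω d else ω d

noncomputable def sg (ω : Om) (c : ℤ × ℕ) : ℝ := if ω c then 1 else -1

theorem sg_cont (c : ℤ × ℕ) : Continuous fun ω => sg ω c :=
  (continuous_of_discreteTopology (f := fun b : Bool => if b then (1 : ℝ) else -1)).comp
    (continuous_apply c)

theorem sg_sq (ω : Om) (c : ℤ × ℕ) : sg ω c * sg ω c = 1 := by
  unfold sg; split_ifs <;> norm_num

theorem sg_fl (ω : Om) (c : ℤ × ℕ) : sg (fl c ω) c = -sg ω c := by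
  unfold sg fl; cases ω c <;> simp

theorem sg_fl' (ω : Om) {c d : ℤ × ℕ} (h : d ≠ c) : sg (fl c ω) d = sg ω d := by
  unfold sg fl; simp [h]

theorem fl_map (c : ℤ × ℕ) : PP.map (fl c) = PP := by
  have h := Measure.infinitePi_map_pi (fun _ : ℤ × ℕ => coin)
    (f := fun d b => if d = c then !b else b) (fun _ => measurable_of_countable _)
  refine h.trans ?_
  unfold PP
  congr 1
  ext1 d
  by_cases e : d = c
  · simp only [e, if_true, coin]
    rw [Measure.map_smul, Measure.map_add _ _ (measurable_of_countable _),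
      Measure.map_dirac' (measurable_of_countable _), Measure.map_dirac' (measurable_of_countable _),
      add_comm]
    rfl
  · simp [e]

theorem fl_meas (c : ℤ × ℕ) : Measurable (fl c) :=
  measurable_pi_iff.2 fun d => (measurable_of_countable
    (fun b : Bool => if d = c then !b else b)).comp (measurable_pi_apply d)

theorem itg {F : Om → ℝ} (h : Continuous F) : Integrable F PP :=
  h.integrable_of_hasCompactSupport (HasCompactSupport.of_compactSpace _)

theorem odd (c : ℤ × ℕ) {G : Om → ℝ} (hG : Continuous G) (hi : ∀ ω, G (fl c ω) = G ω) :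
    ∫ ω, sg ω c * G ω ∂PP = 0 := by
  have h := integral_map (μ := PP) (fl_meas c).aemeasurable (f := fun ω => sg ω c * G ω)
    ((sg_cont c).mul hG).aestronglyMeasurable
  rw [fl_map] at h
  simp only [sg_fl, hi, neg_mul, integral_neg] at h
  linarith

theorem aff (c : ℤ × ℕ) {G : Om → ℝ} (hG : Continuous G) (hi : ∀ ω, G (fl c ω) = G ω) (a b : ℝ) :
    ∫ ω, (a + b * sg ω c) * G ω ∂PP = a * ∫ ω, G ω ∂PP := by
  have : ∀ ω, (a + b * sg ω c) * G ω = a * G ω + b * (sg ω c * G ω) := fun ω => by ring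
  simp only [this]
  have := sg_cont c
  rw [integral_add (itg (by fun_prop)) (itg (by fun_prop)),
    integral_const_mul, integral_const_mul, odd c hG hi]
  ring

noncomputable def LL (S : Finset (ℤ × ℕ)) (τ : ℤ × ℕ → ℝ) (ω : Om) : ℝ :=
  ∏ c ∈ S, (1 + τ c * sg ω c)

theorem LL_cont (S : Finset (ℤ × ℕ)) (τ : ℤ × ℕ → ℝ) : Continuous (LL S τ) :=
  continuous_finsetProd _ fun c _ => continuous_const.add (continuous_const.mul (sg_cont c))

theorem LL_fl {S : Finset (ℤ × ℕ)} (τ : ℤ × ℕ → ℝ) {c : ℤ × ℕ} (h : c ∉ S) (ω : Om) :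
    LL S τ (fl c ω) = LL S τ ω :=
  prod_congr rfl fun d hd => by rw [sg_fl' ω (show d ≠ c from fun e => h (e ▸ hd))]

theorem LL_pos (S : Finset (ℤ × ℕ)) {τ : ℤ × ℕ → ℝ} (h : ∀ c, |τ c| ≤ 1) (ω : Om) :
    0 ≤ LL S τ ω := prod_nonneg fun c _ => by
  have := abs_le.1 (h c)
  unfold sg; split_ifs <;> linarith

theorem La (S : Finset (ℤ × ℕ)) (τ : ℤ × ℕ → ℝ) {G : Om → ℝ} (hG : Continuous G)
    (hi : ∀ c ∈ S, ∀ ω, G (fl c ω) = G ω) : ∫ ω, LL S τ ω * G ω ∂PP = ∫ ω, G ω ∂PP := by
  induction S using Finset.induction_on with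
  | empty => simp [LL]
  | insert c S hc ih =>
    rw [← ih (fun d hd => hi d (mem_insert_of_mem hd))]
    have := aff c ((LL_cont S τ).mul hG) (fun ω => by
      simp only [Pi.mul_apply, LL_fl τ hc, hi c (mem_insert_self _ _)]) 1 (τ c)
    simp only [LL, prod_insert hc, mul_assoc, one_mul, Pi.mul_apply] at this ⊢
    exact this

theorem Lb (S : Finset (ℤ × ℕ)) (τ : ℤ × ℕ → ℝ) :
    ∫ ω, LL S τ ω * LL S τ ω ∂PP ≤ Real.exp (∑ c ∈ S, τ c ^ 2) := by
  induction S using Finset.induction_on with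
  | empty => simp [LL]
  | insert c S hc ih =>
    have := aff c ((LL_cont S τ).mul (LL_cont S τ)) (fun ω => by
      simp only [Pi.mul_apply, LL_fl τ hc]) (1 + τ c ^ 2) (2 * τ c)
    have e : ∀ ω, LL (insert c S) τ ω * LL (insert c S) τ ω =
        (1 + τ c ^ 2 + 2 * τ c * sg ω c) * (LL S τ * LL S τ) ω := fun ω => by
      simp only [LL, prod_insert hc, Pi.mul_apply]
      linear_combination (τ c ^ 2 * (∏ c ∈ S, (1 + τ c * sg ω c)) ^ 2) * sg_sq ω c
    simp only [e, this, sum_insert hc, Real.exp_add]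
    exact mul_le_mul (by linarith [Real.add_one_le_exp (τ c ^ 2)]) ih
      (integral_nonneg fun ω => mul_self_nonneg _) (Real.exp_pos _).le

theorem Lc (S : Finset (ℤ × ℕ)) (τ : ℤ × ℕ → ℝ) (hτ : ∀ c ∉ S, τ c = 0) (c : ℤ × ℕ) {G : Om → ℝ}
    (hG : Continuous G) (hi : ∀ ω, G (fl c ω) = G ω) (a b : ℝ) :
    ∫ ω, LL S τ ω * ((a + b * sg ω c) * G ω) ∂PP = (a + b * τ c) * ∫ ω, LL S τ ω * G ω ∂PP := by
  by_cases hc : c ∈ S
  · have h := aff c ((LL_cont (S.erase c) τ).mul hG) (fun ω => by
      simp only [Pi.mul_apply, LL_fl τ (notMem_erase c S), hi])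
    have e : ∀ ω, LL S τ ω = (1 + τ c * sg ω c) * LL (S.erase c) τ ω := fun ω =>
      (mul_prod_erase S _ hc).symm
    have e1 : ∀ ω, LL S τ ω * ((a + b * sg ω c) * G ω) =
        (a + b * τ c + (b + a * τ c) * sg ω c) * (LL (S.erase c) τ * G) ω := fun ω => by
      rw [e, Pi.mul_apply]
      linear_combination (b * τ c * LL (S.erase c) τ ω * G ω) * sg_sq ω c
    have e2 : ∀ ω, LL S τ ω * G ω = (1 + τ c * sg ω c) * (LL (S.erase c) τ * G) ω := fun ω => by
      rw [e, Pi.mul_apply, mul_assoc]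
    simp only [e1, e2, h, one_mul]
  · have h := aff c ((LL_cont S τ).mul hG) (fun ω => by
      simp only [Pi.mul_apply, LL_fl τ hc, hi]) a b
    rw [hτ c hc, mul_zero, add_zero]
    simp only [Pi.mul_apply] at h
    rw [← h]
    congr 1
    ext ω
    ring

noncomputable def env (ω : Om) (z : ℤ) (i : ℕ) : ℝ := 1 / 2 + 1 / 4 * sg ω (z, i)

theorem ex_cont (n : ℕ) : ∀ F : Om → List Bool → ℝ, (∀ l, Continuous fun ω => F ω l) →
    Continuous fun ω => ex (env ω) n (F ω) := by
  induction n with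
  | zero => exact fun F h => h []
  | succ n ih =>
    intro F h
    refine ih (fun ω l => env ω (pos l) (cnt l (pos l)) * F ω (true :: l) +
      (1 - env ω (pos l) (cnt l (pos l))) * F ω (false :: l)) (fun l => ?_)
    have := sg_cont (pos l, cnt l (pos l))
    have := h (true :: l)
    have := h (false :: l)
    unfold env
    fun_prop

theorem avg (S : Finset (ℤ × ℕ)) (τ : ℤ × ℕ → ℝ) (hτ : ∀ c ∉ S, τ c = 0) (n : ℕ) :
    ∀ F : Om → List Bool → ℝ, (∀ l, Continuous fun ω => F ω l) →
    (∀ l z i, i < cnt l z → ∀ ω, F (fl (z, i) ω) l = F ω l) →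
    ∫ ω, LL S τ ω * ex (env ω) n (F ω) ∂PP =
      ex (fun z i => 1 / 2 + 1 / 4 * τ (z, i)) n (fun l => ∫ ω, LL S τ ω * F ω l ∂PP) := by
  induction n with
  | zero => exact fun F _ _ => rfl
  | succ n ih =>
    intro F h hi
    have c0 := fun l => sg_cont (pos l, cnt l (pos l))
    refine (ih (fun ω l => env ω (pos l) (cnt l (pos l)) * F ω (true :: l) +
      (1 - env ω (pos l) (cnt l (pos l))) * F ω (false :: l)) (fun l => ?_)
      (fun l z i hz ω => ?_)).trans ?_
    · have := c0 l
      have := h (true :: l)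
      have := h (false :: l)
      unfold env
      fun_prop
    · have : (pos l, cnt l (pos l)) ≠ (z, i) := by
        intro e
        obtain ⟨rfl, rfl⟩ := Prod.mk.inj e
        omega
      simp only [env, sg_fl' ω this]
      rw [hi _ z i (by simp only [cnt]; omega), hi _ z i (by simp only [cnt]; omega)]
    · simp only [ex]
      congr 1
      ext l
      have a1 := Lc S τ hτ (pos l, cnt l (pos l)) (h (true :: l))
        (hi _ _ _ (by simp [cnt])) (1 / 2) (1 / 4)
      have a2 := Lc S τ hτ (pos l, cnt l (pos l)) (h (false :: l))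
        (hi _ _ _ (by simp [cnt])) (1 / 2) (-1 / 4)
      have := c0 l
      have := h (true :: l)
      have := h (false :: l)
      have := LL_cont S τ
      rw [← a1, show 1 - (1 / 2 + 1 / 4 * τ (pos l, cnt l (pos l))) =
        1 / 2 + -1 / 4 * τ (pos l, cnt l (pos l)) by ring, ← a2,
        ← integral_add (itg (by fun_prop)) (itg (by fun_prop))]
      congr 1
      ext ω
      unfold env
      ring

theorem small (B : Set Om) (C η : ℝ)
    (h : ∀ T : Finset (ℤ × ℕ), ∃ (S : Finset (ℤ × ℕ)) (τ : ℤ × ℕ → ℝ), Disjoint S T ∧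
      ∑ c ∈ S, τ c ^ 2 ≤ C ∧ ∫ ω in B, LL S τ ω ∂PP ≤ η) : PP.real B ≤ η := by
  have key : ∀ J : ℕ, ∃ (Y : Om → ℝ) (T : Finset (ℤ × ℕ)), Continuous Y ∧
      (∀ c ∉ T, ∀ ω, Y (fl c ω) = Y ω) ∧ ∫ ω, Y ω * Y ω ∂PP ≤ J * Real.exp C ∧
      J * (PP.real B - η) ≤ ∫ ω in B, Y ω ∂PP := by
    intro J
    induction J with
    | zero => exact ⟨fun _ => 0, ∅, continuous_const, fun _ _ _ => rfl, by simp, by simp⟩
    | succ J ih =>
      obtain ⟨Y, T, c1, c2, c3, c4⟩ := ih
      obtain ⟨S, τ, d1, d2, d3⟩ := h T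
      have cL := LL_cont S τ
      refine ⟨fun ω => Y ω + (1 - LL S τ ω), T ∪ S, by fun_prop, fun c hc ω => ?_, ?_, ?_⟩
      · simp only
        rw [c2 c (fun e => hc (mem_union_left _ e)), LL_fl τ (fun e => hc (mem_union_right _ e))]
      · have e : ∀ ω, (Y ω + (1 - LL S τ ω)) * (Y ω + (1 - LL S τ ω)) = Y ω * Y ω +
            LL S τ ω * LL S τ ω + ((2 * Y ω + 2) - LL S τ ω * (2 * Y ω + 2)) - 1 := fun ω => by ring
        have a := La S τ (G := fun ω => 2 * Y ω + 2) (by fun_prop) (fun c hc ω => by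
          rw [c2 c (disjoint_left.1 d1 hc)])
        simp only [e]
        rw [integral_sub (itg (by fun_prop)) (itg (by fun_prop)),
          integral_add (itg (by fun_prop)) (itg (by fun_prop)),
          integral_add (itg (by fun_prop)) (itg (by fun_prop)),
          integral_sub (itg (by fun_prop)) (itg (by fun_prop)), a]
        have := (Lb S τ).trans (Real.exp_le_exp.2 d2)
        simp only [integral_const, probReal_univ, smul_eq_mul]
        push_cast
        linarith
      · rw [integral_add (itg c1).integrableOn (itg (by fun_prop)).integrableOn,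
          integral_sub (itg (by fun_prop)).integrableOn (itg cL).integrableOn]
        simp only [integral_const, smul_eq_mul, Measure.restrict_apply_univ, measureReal_def] at *
        push_cast
        linarith
  by_contra hc
  have hd : 0 < PP.real B - η := by linarith
  obtain ⟨J, hJ⟩ := exists_nat_gt (Real.exp C / (PP.real B - η) ^ 2)
  have J0 : (0 : ℝ) < J := lt_trans (by positivity) hJ
  obtain ⟨Y, T, c1, -, c3, c4⟩ := key J
  generalize PP.real B - η = d at *
  have a0 : 0 < J * d := by positivity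
  have a1 : ∫ ω in B, Y ω ∂PP ≤ ∫ ω in B, (J * d / 2 + 1 / (2 * (J * d)) * (Y ω * Y ω)) ∂PP :=
    integral_mono (itg c1).integrableOn (itg (by fun_prop)).integrableOn fun ω => by
      have : J * d / 2 + 1 / (2 * (J * d)) * (Y ω * Y ω) - Y ω =
          (J * d - Y ω) ^ 2 / (2 * (J * d)) := by field_simp; ring
      have : 0 ≤ (J * d - Y ω) ^ 2 / (2 * (J * d)) := by positivity
      simp only
      linarith
  have a2 := setIntegral_le_integral (μ := PP) (s := B)
    (f := fun ω => J * d / 2 + 1 / (2 * (J * d)) * (Y ω * Y ω)) (itg (by fun_prop))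
    (ae_of_all _ fun ω => add_nonneg (by positivity) (mul_nonneg (by positivity) (mul_self_nonneg _)))
  rw [integral_add (itg (by fun_prop)) (itg (by fun_prop)), integral_const_mul] at a2
  simp only [integral_const, probReal_univ, smul_eq_mul, one_mul] at a2
  have a3 := mul_le_mul_of_nonneg_left c3 (by positivity : 0 ≤ 1 / (2 * (J * d)))
  have a4 : J * d / 2 ≤ 1 / (2 * (J * d)) * (J * Real.exp C) := by linarith
  rw [div_lt_iff₀ (by positivity)] at hJ
  rw [div_mul_eq_mul_div, le_div_iff₀ (by positivity)] at a4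
  nlinarith

end Pool.Agent.H.MP_0d3db7_pr
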