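import Pool.Agent.H.MP_3ce60b_pr.D

namespace Pool.Agent.H.MP_0d3db7_pr
open Finset Pool.Agent.H.MP_3ce60b_pr

variable {w : ℤ → ℕ → ℝ}

theorem ex_mono (hw : ∀ z i, 0 ≤ w z i ∧ w z i ≤ 1) (n : ℕ) : ∀ f g : List Bool → ℝ,
    (∀ l, f l ≤ g l) → ex w n f ≤ ex w n g := by
  induction n with
  | zero => exact fun f g h => h []
  | succ n ih =>
    intro f g h
    refine ih _ _ (fun l => ?_)
    have := hw (pos l) (cnt l (pos l))
    exact add_le_add (mul_le_mul_of_nonneg_left (h _) (by linarith))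
      (mul_le_mul_of_nonneg_left (h _) (by linarith))

theorem ex_lin (n : ℕ) : ∀ (f g : List Bool → ℝ) (a b c : ℝ),
    ex w n (fun l => a * f l + b * g l + c) = a * ex w n f + b * ex w n g + c := by
  induction n with
  | zero => exact fun f g a b c => rfl
  | succ n ih =>
    intro f g a b c
    simp only [ex]
    rw [← ih]
    congr 1
    ext l
    ring

theorem ex_sum (n : ℕ) (Z : Finset ℤ) (f : ℤ → List Bool → ℝ) :
    ex w n (fun l => ∑ z ∈ Z, f z l) = ∑ z ∈ Z, ex w n (f z) := by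
  induction Z using Finset.induction_on with
  | empty => simpa using ex_lin (w := w) n (fun _ => 0) (fun _ => 0) 0 0 0
  | insert z Z hz ih =>
    have := ex_lin (w := w) n (f z) (fun l => ∑ z ∈ Z, f z l) 1 1 0
    simp only [sum_insert hz, ← ih]
    simpa using this

noncomputable def wb (τ : ℤ × ℕ → ℝ) (z : ℤ) (i : ℕ) : ℝ := 1 / 2 + 1 / 4 * τ (z, i)

variable {τ : ℤ × ℕ → ℝ} {t : ℝ}

theorem wb_bd (h : ∀ c, |τ c| ≤ t) (ht : t ≤ 1) (z : ℤ) (i : ℕ) :
    0 ≤ wb τ z i ∧ wb τ z i ≤ 1 := by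
  have := abs_le.1 (h (z, i))
  unfold wb
  constructor <;> linarith

theorem P2 (h : ∀ c, |τ c| ≤ t) (ht : t ≤ 1) (h2 : ∀ (z : ℤ) i, z * τ (z, i) ≤ 0) (k : ℕ) :
    ex (wb τ) k (fun l => (pos l : ℝ) ^ 2) ≤ k := by
  induction k with
  | zero => simp [ex, pos]
  | succ k ih =>
    have e := ex_lin (w := wb τ) k (fun l => (pos l : ℝ) ^ 2) (fun _ => 0) 1 0 1
    refine (ex_mono (wb_bd h ht) k _ _ (fun l => ?_)).trans (e.le.trans (by push_cast; linarith))
    have := h2 (pos l) (cnt l (pos l))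
    simp only [pos, wb, if_true, Bool.false_eq_true, if_false]
    push_cast
    nlinarith

theorem G2 (h : ∀ c, |τ c| ≤ t) (ht : t ≤ 1) (z : ℤ) {N : ℝ} (hN : 0 < N) (k : ℕ) :
    ex (wb τ) k (fun l => ((cnt l z : ℝ) - |(pos l : ℝ) - z|) ^ 2) ≤
      (1 + 1 / N) ^ k * (z ^ 2 + k * (1 + t ^ 2 * N)) := by
  induction k with
  | zero => simp [ex, pos, cnt]
  | succ k ih =>
    have e := ex_lin (w := wb τ) k (fun l => ((cnt l z : ℝ) - |(pos l : ℝ) - z|) ^ 2)
      (fun _ => 0) (1 + 1 / N) 0 (1 + t ^ 2 * N)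
    have p0 : 0 < 1 / N := by positivity
    have p1 : 0 ≤ t ^ 2 * N := by positivity
    refine (ex_mono (wb_bd h ht) k _ _ (fun l => ?_)).trans (e.le.trans ?_)
    · have a := sq_le_sq' (abs_le.1 (h (pos l, cnt l (pos l)))).1 (abs_le.1 (h (pos l, cnt l (pos l)))).2
      simp only [pos, cnt, wb, if_true, Bool.false_eq_true, if_false]
      generalize τ (pos l, cnt l (pos l)) = s at *
      have key : ∀ y : ℝ, y * s ≤ 1 / N * y ^ 2 + t ^ 2 * N := fun y => by
        have : 1 / N * y ^ 2 + s ^ 2 * N - 2 * (y * s) = (y - s * N) ^ 2 / N := by field_simp; ring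
        have : 0 ≤ (y - s * N) ^ 2 / N := by positivity
        nlinarith [mul_le_mul_of_nonneg_right a hN.le, mul_nonneg p0.le (sq_nonneg y)]
      push_cast
      rcases lt_trichotomy (pos l) z with q | q | q
      · have q' : (pos l : ℝ) + 1 ≤ z := by exact_mod_cast q
        rw [if_neg q.ne, abs_of_nonpos (by linarith), abs_of_nonpos (by linarith),
          abs_of_nonpos (by linarith)]
        nlinarith [key ((cnt l z : ℝ) + (pos l - z))]
      · rw [if_pos q, q, show (z : ℝ) + 1 - z = 1 by ring, show (z : ℝ) + -1 - z = -1 by ring]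
        simp only [abs_one, abs_neg, sub_self, abs_zero]
        nlinarith [mul_nonneg p0.le (sq_nonneg (cnt l z : ℝ))]
      · have q' : (z : ℝ) + 1 ≤ pos l := by exact_mod_cast q
        rw [if_neg q.ne', abs_of_nonneg (by linarith), abs_of_nonneg (by linarith),
          abs_of_nonneg (by linarith)]
        nlinarith [key (-((cnt l z : ℝ) - (pos l - z)))]
    · have a := mul_le_mul_of_nonneg_left ih (by linarith : 0 ≤ 1 + 1 / N)
      have b : 1 ≤ (1 + 1 / N) ^ (k + 1) := one_le_pow₀ (by linarith)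
      have c := mul_le_mul_of_nonneg_right b (by linarith : 0 ≤ 1 + t ^ 2 * N)
      push_cast
      rw [← mul_assoc, ← pow_succ'] at a
      generalize (1 + 1 / N) ^ (k + 1) = u at *
      generalize 1 + t ^ 2 * N = v at *
      linarith

theorem C2 (h : ∀ c, |τ c| ≤ t) (ht : t ≤ 1) (h2 : ∀ (z : ℤ) i, z * τ (z, i) ≤ 0) (z : ℤ) {N : ℕ}
    (hN : 0 < N) : ex (wb τ) N (fun l => (cnt l z : ℝ) ^ 2) ≤
      10 * z ^ 2 + 10 * N + 6 * t ^ 2 * N ^ 2 := by
  have n0 : (0 : ℝ) < N := by exact_mod_cast hN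
  have e := ex_lin (w := wb τ) N (fun l => ((cnt l z : ℝ) - |(pos l : ℝ) - z|) ^ 2)
    (fun l => (pos l : ℝ) ^ 2) 2 4 (4 * z ^ 2)
  have a := G2 h ht z n0 N
  have b := P2 h ht h2 N
  have c : (1 + 1 / (N : ℝ)) ^ N ≤ 3 := by
    refine le_trans ?_ Real.exp_one_lt_three.le
    calc _ ≤ Real.exp (1 / N) ^ N :=
          pow_le_pow_left₀ (by positivity) (by linarith [Real.add_one_le_exp (1 / (N : ℝ))]) _
      _ = _ := by rw [← Real.exp_nat_mul, mul_one_div_cancel n0.ne']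
  have d := mul_le_mul_of_nonneg_right c (by positivity : 0 ≤ (z : ℝ) ^ 2 + N * (1 + t ^ 2 * N))
  refine (ex_mono (wb_bd h ht) N _ _ (fun l => ?_)).trans (e.le.trans (by nlinarith))
  nlinarith [sq_abs ((pos l : ℝ) - z), sq_nonneg ((cnt l z : ℝ) - 2 * |(pos l : ℝ) - z|),
    sq_nonneg ((pos l : ℝ) + z)]

theorem cnt_sq (Z : Finset ℤ) (b : Bool) (l : List Bool) : ∑ z ∈ Z, (cnt (b :: l) z : ℝ) ^ 2 =
    ∑ z ∈ Z, (cnt l z : ℝ) ^ 2 + if pos l ∈ Z then 2 * (cnt l (pos l) : ℝ) + 1 else 0 := by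
  rw [← sum_ite_eq Z (pos l) (fun z => 2 * (cnt l z : ℝ) + 1), ← sum_add_distrib]
  refine sum_congr rfl fun z _ => ?_
  simp only [cnt]
  split_ifs
  · push_cast; ring
  · simp

theorem tot (h : ∀ c, |τ c| ≤ t) (t0 : 0 < t) (ht : t ≤ 1) (h2 : ∀ (z : ℤ) i, z * τ (z, i) ≤ 0)
    {R1 R2 N : ℕ} {r : ℝ} (r0 : 0 < r) (hN : 0 < N) (p1 : 0 < R1) (p2 : 0 < R2)
    (h3 : ∀ (z : ℤ) i, r < |(z : ℝ)| → |z| ≤ R1 → i < R2 → z * τ (z, i) = -(|(z : ℝ)| * t)) :
    ∑ k ∈ range N, ex (wb τ) k (fun l => if r < |(pos l : ℝ)| then 1 else 0) ≤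
      (2 * R1 + 1) * (10 * R1 ^ 2 + 10 * N + 6 * t ^ 2 * N ^ 2) / R2 +
        N * (N / R1 ^ 2 + 1 / (t * r)) := by
  have q1 : (0 : ℝ) < R1 := by exact_mod_cast p1
  have q2 : (0 : ℝ) < R2 := by exact_mod_cast p2
  set V : List Bool → ℝ := fun l => 1 / (R2 : ℝ) * ∑ z ∈ Icc (-(R1 : ℤ)) R1, (cnt l z : ℝ) ^ 2 -
    1 / (t * r) * (pos l : ℝ) ^ 2 with hV
  have key : ∀ k ≤ N, ∑ k ∈ range k, ex (wb τ) k (fun l => if r < |(pos l : ℝ)| then 1 else 0) ≤
      ex (wb τ) k V + k * (N / R1 ^ 2 + 1 / (t * r)) := by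
    intro k hk
    induction k with
    | zero => simp [ex, hV, pos, cnt]
    | succ k ih =>
      have a := ih (by omega)
      have e1 := ex_lin (w := wb τ) k (fun l => if r < |(pos l : ℝ)| then 1 else 0) V 1 1 0
      have e2 := ex_lin (w := wb τ) k (fun l => wb τ (pos l) (cnt l (pos l)) * V (true :: l) +
        (1 - wb τ (pos l) (cnt l (pos l))) * V (false :: l)) (fun l => (pos l : ℝ) ^ 2) 1
        (1 / R1 ^ 2) (1 / (t * r))
      have b := mul_le_mul_of_nonneg_left ((P2 h ht h2 k).trans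
        (by exact_mod_cast (by omega : k ≤ N) : (k : ℝ) ≤ N)) (by positivity : 0 ≤ 1 / (R1 : ℝ) ^ 2)
      have c := e1.ge.trans ((ex_mono (wb_bd h ht) k _ _ (fun l => ?_)).trans e2.le)
      · rw [sum_range_succ, ex]
        push_cast
        rw [one_div_mul_eq_div _ (N : ℝ)] at b
        generalize (N : ℝ) / R1 ^ 2 = u at *
        generalize 1 / (t * r) = v at *
        linarith
      · simp only [hV, cnt_sq, pos, wb, if_true, Bool.false_eq_true, if_false]
        push_cast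
        have g1 := h2 (pos l) (cnt l (pos l))
        have g2 := h3 (pos l) (cnt l (pos l))
        have g3 : (if r < |(pos l : ℝ)| then 1 else 0) ≤ 1 / (R2 : ℝ) *
            (if pos l ∈ Icc (-(R1 : ℤ)) R1 then 2 * (cnt l (pos l) : ℝ) + 1 else 0) +
            1 / (t * r) * -(pos l * τ (pos l, cnt l (pos l))) + 1 / R1 ^ 2 * (pos l : ℝ) ^ 2 := by
          have u1 : 0 ≤ 1 / (R2 : ℝ) *
            (if pos l ∈ Icc (-(R1 : ℤ)) R1 then 2 * (cnt l (pos l) : ℝ) + 1 else 0) := by positivity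
          have u2 := mul_nonneg (by positivity : 0 ≤ 1 / (t * r)) (neg_nonneg.2 g1)
          have u3 : 0 ≤ 1 / (R1 : ℝ) ^ 2 * (pos l : ℝ) ^ 2 := by positivity
          split_ifs with v1 v2 v2
          · rw [if_pos v2] at u1
            by_cases v3 : cnt l (pos l) < R2
            · rw [g2 v1 (abs_le.2 (mem_Icc.1 v2)) v3] at u2 ⊢
              have : 1 ≤ 1 / (t * r) * - -(|(pos l : ℝ)| * t) := by
                rw [one_div_mul_eq_div, le_div_iff₀ (by positivity)]; nlinarith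
              linarith
            · have : (R2 : ℝ) ≤ cnt l (pos l) := by exact_mod_cast not_lt.1 v3
              have : 1 ≤ 1 / (R2 : ℝ) * (2 * (cnt l (pos l) : ℝ) + 1) := by
                rw [one_div_mul_eq_div, le_div_iff₀ q2]; linarith
              linarith
          · have : (R1 : ℝ) ≤ |(pos l : ℝ)| := by
              rw [mem_Icc, ← abs_le] at v2
              exact_mod_cast (not_le.1 v2).le
            have : 1 ≤ 1 / (R1 : ℝ) ^ 2 * (pos l : ℝ) ^ 2 := by
              rw [one_div_mul_eq_div, le_div_iff₀ (by positivity), one_mul, ← sq_abs (pos l : ℝ)]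
              exact pow_le_pow_left₀ q1.le this 2
            linarith
          · rw [if_pos v2] at u1
            linarith
          · linarith
        nlinarith
  have e := ex_lin (w := wb τ) N (fun l => ∑ z ∈ Icc (-(R1 : ℤ)) R1, (cnt l z : ℝ) ^ 2)
    (fun _ => 0) (1 / R2) 0 0
  have a : ex (wb τ) N V ≤ _ := (ex_mono (wb_bd h ht) N _ _ (fun l => by
    have : 0 ≤ 1 / (t * r) * (pos l : ℝ) ^ 2 := by positivity
    simp only [hV]
    linarith)).trans e.le
  have b := sum_le_card_nsmul (Icc (-(R1 : ℤ)) R1) (fun z => ex (wb τ) N (fun l => (cnt l z : ℝ) ^ 2))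
    (10 * R1 ^ 2 + 10 * N + 6 * t ^ 2 * N ^ 2) (fun z hz => (C2 h ht h2 z hN).trans (by
      have : (z : ℝ) ^ 2 ≤ R1 ^ 2 := by
        exact_mod_cast sq_le_sq' (mem_Icc.1 hz).1 (mem_Icc.1 hz).2
      linarith))
  rw [← ex_sum, Int.card_Icc, show (R1 : ℤ) + 1 - -R1 = ((2 * R1 + 1 : ℕ) : ℤ) by push_cast; ring,
    Int.toNat_natCast, nsmul_eq_mul] at b
  push_cast at b
  have c := div_le_div_of_nonneg_right b q2.le
  rw [one_div_mul_eq_div] at a
  linarith [key N le_rfl]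

end Pool.Agent.H.MP_0d3db7_pr
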