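import Pool.Agent.H.MP_0d3db7_pr.A
import Pool.Agent.H.MP_0d3db7_pr.B

namespace Pool.Agent.H.MP_0d3db7_pr
open MeasureTheory Finset Filter Pool.Agent.H.MP_3ce60b_pr

theorem walk (K M m N0 : ℕ) (hK : 0 < K) (hM : 0 < M) : ∃ (S : Finset (ℤ × ℕ)) (τ : ℤ × ℕ → ℝ),
    (∀ c ∈ S, m < c.1.natAbs) ∧ (∀ c ∉ S, τ c = 0) ∧ (∀ c, |τ c| ≤ 1) ∧
    ∑ c ∈ S, τ c ^ 2 ≤ 3 * M * (3 * M ^ 2 * (10 * M ^ 2 + 20 + 24 * (K * M) ^ 2)) * (K * M) ^ 2 ∧
    ∃ k, N0 ≤ k ∧ ex (wb τ) k (fun l => if √k / K < |(pos l : ℝ)| then 1 else 0) ≤ 7 / M := by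
  obtain ⟨s, s1, s2, s3, s0⟩ : ∃ s : ℕ, K * M ≤ s ∧ K * m ≤ s ∧ N0 ≤ s ∧ 0 < s :=
    ⟨K * M + K * m + N0 + 1, by omega, by omega, by omega, by omega⟩
  have k0 : (1 : ℝ) ≤ K := by exact_mod_cast hK
  have m0 : (1 : ℝ) ≤ M := by exact_mod_cast hM
  have r0 : (1 : ℝ) ≤ s := by exact_mod_cast s0
  set b : ℕ := 3 * M ^ 2 * (10 * M ^ 2 + 20 + 24 * (K * M) ^ 2) with hb
  have b0 : 0 < b := by positivity
  set t : ℝ := K * M / s with ht
  have t0 : 0 < t := by positivity
  have t1 : t ≤ 1 := by rw [ht, div_le_one (by positivity)]; exact_mod_cast s1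
  set S : Finset (ℤ × ℕ) := ((Icc (-((M * s : ℕ) : ℤ)) (M * s : ℕ)).filter
    (fun z => m < z.natAbs)) ×ˢ range (b * s) with hS
  set τ : ℤ × ℕ → ℝ := fun c => if c ∈ S then (if 0 < c.1 then -t else t) else 0 with hτ
  have h : ∀ c, |τ c| ≤ t := fun c => by
    simp only [hτ]
    split_ifs <;> simp [abs_of_pos t0, t0.le]
  have h2 : ∀ (z : ℤ) i, z * τ (z, i) ≤ 0 := fun z i => by
    simp only [hτ]
    split_ifs with v1 v2
    · have : (0 : ℝ) < z := by exact_mod_cast v2
      nlinarith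
    · have : (z : ℝ) ≤ 0 := by exact_mod_cast not_lt.1 v2
      nlinarith
    · simp
  have a := tot h t0 t1 h2 (R1 := M * s) (R2 := b * s) (N := 2 * s ^ 2) (r := s / K)
    (by positivity) (by positivity) (by positivity) (by positivity) (fun z i v1 v2 v3 => by
      have : (z, i) ∈ S := by
        refine mem_product.2 ⟨mem_filter.2 ⟨mem_Icc.2 (abs_le.1 v2), ?_⟩, mem_range.2 v3⟩
        have : (m : ℝ) ≤ s / K := by
          rw [le_div_iff₀ (by positivity), mul_comm]; exact_mod_cast s2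
        have : (m : ℝ) < (z.natAbs : ℝ) := by
          rw [Nat.cast_natAbs]; push_cast; linarith
        exact_mod_cast this
      simp only [hτ, if_pos this]
      split_ifs with v
      · rw [abs_of_pos (by exact_mod_cast v)]; ring
      · rw [abs_of_nonpos (by exact_mod_cast not_lt.1 v)]; ring)
  refine ⟨S, τ, fun c hc => (mem_filter.1 (mem_product.1 hc).1).2, fun c hc => if_neg hc,
    fun c => (h c).trans t1, ?_, ?_⟩
  · refine (sum_le_card_nsmul S _ (t ^ 2) (fun c _ => sq_le_sq' (abs_le.1 (h c)).1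
      (abs_le.1 (h c)).2)).trans ?_
    have c1 : S.card ≤ 3 * M * s * (b * s) := by
      rw [hS, card_product, card_range]
      refine Nat.mul_le_mul_right _ ((card_filter_le _ _).trans ?_)
      have : 0 < M * s := by positivity
      rw [Int.card_Icc, mul_assoc]
      omega
    have c2 : (S.card : ℝ) ≤ 3 * M * s * (b * s) := by exact_mod_cast c1
    rw [nsmul_eq_mul]
    refine (mul_le_mul_of_nonneg_right c2 (sq_nonneg t)).trans (le_of_eq ?_)
    rw [ht, hb]
    push_cast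
    field_simp
  · have hw := wb_bd h t1
    have u0 : ∀ k, 0 ≤ ex (wb τ) k (fun l => if (s : ℝ) / K < |(pos l : ℝ)| then 1 else 0) :=
      fun k => by
        have e := ex_lin (w := wb τ) k (fun _ => 0) (fun _ => 0) 0 0 0
        refine le_trans (by linarith) (e.ge.trans (ex_mono hw k _ _ fun l => ?_))
        split_ifs <;> norm_num
    have sub : Ico (s ^ 2) (2 * s ^ 2) ⊆ range (2 * s ^ 2) := fun k hk =>
      mem_range.2 (mem_Ico.1 hk).2
    have s4 : 0 < s ^ 2 := by positivity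
    obtain ⟨k, k1, k2⟩ := exists_le_of_sum_le (s := Ico (s ^ 2) (2 * s ^ 2))
      (g := fun _ => (7 : ℝ) / M) (nonempty_Ico.2 (by omega))
      ((sum_le_sum_of_subset_of_nonneg sub (fun k _ _ => u0 k)).trans (a.trans (by
        rw [sum_const, Nat.card_Ico, show 2 * s ^ 2 - s ^ 2 = s ^ 2 by omega, nsmul_eq_mul, ht, hb]
        push_cast
        have e1 : (2 * ((M : ℝ) * s) + 1) * (10 * (M * s) ^ 2 + 10 * (2 * s ^ 2) +
            6 * (K * M / s) ^ 2 * (2 * s ^ 2) ^ 2) /
            (3 * M ^ 2 * (10 * M ^ 2 + 20 + 24 * (K * M) ^ 2) * s) =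
            (s ^ 2 / M) * ((2 * (M * s) + 1) / (3 * (M * s))) := by field_simp; ring
        have e2 : 2 * (s : ℝ) ^ 2 * (2 * s ^ 2 / (M * s) ^ 2 + 1 / (K * M / s * (s / K))) =
            (s ^ 2 / M) * (4 / M + 2) := by field_simp; ring
        have e3 : (2 * ((M : ℝ) * s) + 1) / (3 * (M * s)) ≤ 1 := by
          rw [div_le_one (by positivity)]; nlinarith
        have e4 : 4 / (M : ℝ) ≤ 4 := by rw [div_le_iff₀ (by positivity)]; linarith
        have e5 : (0 : ℝ) ≤ s ^ 2 / M := by positivity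
        rw [e1, e2, show (s : ℝ) ^ 2 * (7 / M) = s ^ 2 / M * 7 by ring]
        nlinarith)))
    have k3 := (mem_Ico.1 k1).1
    refine ⟨k, by nlinarith, (ex_mono hw k _ _ fun l => ?_).trans k2⟩
    have : (s : ℝ) / K ≤ √k / K := div_le_div_of_nonneg_right
      (Real.le_sqrt_of_sq_le (by exact_mod_cast k3)) (by positivity)
    split_ifs <;> linarith

theorem env_bd (ω : Om) (z : ℤ) (i : ℕ) : 0 ≤ env ω z i ∧ env ω z i ≤ 1 := by
  unfold env sg; split_ifs <;> norm_num

def BB (K N0 : ℕ) : Set Om := {ω | ∀ k, N0 ≤ k →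
  1 / 4 < ex (env ω) k (fun l => if √k / K < |(pos l : ℝ)| then 1 else 0)}

theorem BB_meas (K N0 : ℕ) : MeasurableSet (BB K N0) := by
  unfold BB
  simp only [Set.ofPred_forall]
  exact .iInter fun k => .iInter fun _ => (isOpen_lt continuous_const
    (ex_cont k (fun _ l => if √k / K < |(pos l : ℝ)| then 1 else 0)
      fun _ => continuous_const)).measurableSet

theorem BB_le (K N0 M : ℕ) (hK : 0 < K) (hM : 0 < M) : PP.real (BB K N0) ≤ 4 * (7 / M) := by
  refine small _ (3 * M * (3 * M ^ 2 * (10 * M ^ 2 + 20 + 24 * (K * M) ^ 2)) * (K * M) ^ 2) _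
    fun T => ?_
  obtain ⟨S, τ, a1, a2, a3, a4, k, a5, a6⟩ := walk K M (T.sup fun c => c.1.natAbs) N0 hK hM
  refine ⟨S, τ, disjoint_left.2 fun c h1 h2 => absurd (a1 c h1)
    (not_lt.2 (le_sup (f := fun c : ℤ × ℕ => c.1.natAbs) h2)), a4, ?_⟩
  have cL := LL_cont S τ
  have cE := ex_cont k (fun _ l => if √k / K < |(pos l : ℝ)| then 1 else 0)
    fun _ => continuous_const
  have e := avg S τ a2 k (fun _ l => if √k / K < |(pos l : ℝ)| then 1 else 0)
    (fun _ => continuous_const) (fun _ _ _ _ _ => rfl)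
  simp only [La S τ continuous_const (fun _ _ _ => rfl), integral_const, probReal_univ,
    smul_eq_mul, one_mul] at e
  have b1 := setIntegral_mono_on (itg cL).integrableOn (itg ((continuous_const (y := (4 : ℝ))).mul
    (cL.mul cE))).integrableOn (BB_meas K N0) (fun ω hω => by
      simp only [Pi.mul_apply]
      nlinarith [hω k a5, LL_pos S a3 ω])
  have b2 := setIntegral_le_integral (μ := PP) (s := BB K N0) (itg ((continuous_const (y := (4 : ℝ))).mul
    (cL.mul cE))) (ae_of_all _ fun ω => mul_nonneg (by norm_num) (mul_nonneg (LL_pos S a3 ω) (by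
      have e := ex_lin (w := env ω) k (fun _ => 0) (fun _ => 0) 0 0 0
      refine le_trans (by linarith) (e.ge.trans (ex_mono (env_bd ω) k _ _ fun l => ?_))
      split_ifs <;> norm_num)))
  refine b1.trans (b2.trans ?_)
  simp only [Pi.mul_apply]
  rw [integral_const_mul, e]
  exact mul_le_mul_of_nonneg_left a6 (by norm_num)

theorem BB_zero (K N0 : ℕ) : PP (BB (K + 1) N0) = 0 := by
  rw [← measureReal_eq_zero_iff]
  refine le_antisymm (ge_of_tendsto (x := atTop) (f := fun M : ℕ => 4 * (7 / (M : ℝ))) ?_ ?_)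
    measureReal_nonneg
  · simpa using (tendsto_const_div_atTop_nhds_zero_nat (7 : ℝ)).const_mul 4
  · filter_upwards [eventually_gt_atTop 0] with M hM using BB_le _ _ _ (by omega) hM

open ProbabilityTheory in
theorem gauss {v : NNReal} (hv : v ≠ 0) : (gaussianReal 0 v).real (Set.Iic 0) = 1 / 2 := by
  have := nullSingletonClass_gaussianReal (μ := 0) hv
  have a : (gaussianReal 0 v).real (Set.Iic 0) = (gaussianReal 0 v).real (Set.Ioi 0) := by
    have h := gaussianReal_map_neg (μ := 0) (v := v)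
    rw [neg_zero] at h
    rw [measureReal_congr Ioi_ae_eq_Ici]
    conv_lhs => rw [← h]
    rw [map_measureReal_apply measurable_neg measurableSet_Iic]
    congr 1
    ext x
    simp
  have b := measureReal_add_measureReal_compl (μ := gaussianReal 0 v) (measurableSet_Iic (a := (0 : ℝ)))
  rw [Set.compl_Iic, probReal_univ] at b
  linarith

open ProbabilityTheory in
theorem main : ∀ᵐ ω ∂PP, ¬ ∃ (c : ℕ → ℝ) (v : NNReal), v ≠ 0 ∧ ∀ x : ℝ,
    Tendsto (fun n => ex (env ω) n (fun l => if (pos l - c n) / √n ≤ x then 1 else 0)) atTop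
      (nhds ((gaussianReal 0 v).real (Set.Iic x))) := by
  have h : ∀ᵐ ω ∂PP, ∀ K N0, ω ∉ BB (K + 1) N0 :=
    ae_all_iff.2 fun K => ae_all_iff.2 fun N0 => measure_eq_zero_iff_ae_notMem.1 (BB_zero K N0)
  filter_upwards [h] with ω hω
  rintro ⟨c, v, hv, hc⟩
  have g := gauss hv
  have r := ((cdf (gaussianReal 0 v)).right_continuous 0).tendsto.eventually
    (gt_mem_nhds (show cdf (gaussianReal 0 v) 0 < 3 / 4 by rw [cdf_eq_real, g]; norm_num))
  obtain ⟨b, b1, b0⟩ := ((r.filter_mono (nhdsWithin_mono _ Set.Ioi_subset_Ici_self)).and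
    self_mem_nhdsWithin).exists
  rw [cdf_eq_real] at b1
  have b0 : 0 < b := b0
  obtain ⟨K, hK⟩ := exists_nat_gt (2 / b)
  obtain ⟨N0, hN⟩ := eventually_atTop.1 ((((hc b).eventually (gt_mem_nhds b1)).and
    ((hc 0).eventually (lt_mem_nhds (show 1 / 4 < _ by rw [g]; norm_num)))).and
    (eventually_gt_atTop 0))
  refine hω K N0 fun k hk => ?_
  obtain ⟨⟨a1, a2⟩, a3⟩ := hN k hk
  have q : 0 < √(k : ℝ) := Real.sqrt_pos.2 (by exact_mod_cast a3)
  have q2 : 2 * (√(k : ℝ) / ((K + 1 : ℕ) : ℝ)) ≤ b * √k := by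
    rw [div_lt_iff₀ b0] at hK
    rw [← mul_div_assoc, div_le_iff₀ (by positivity)]
    push_cast
    nlinarith
  generalize √(k : ℝ) / ((K + 1 : ℕ) : ℝ) = u at *
  by_cases e : c k < -u
  · refine a2.trans_le (ex_mono (env_bd ω) k _ _ fun l => ?_)
    have := neg_abs_le (pos l : ℝ)
    simp only [div_le_iff₀ q]
    split_ifs <;> linarith
  · have e2 := ex_lin (w := env ω) k (fun l => if (pos l - c k) / √k ≤ b then 1 else 0)
      (fun _ => 0) (-1) 0 1
    refine lt_of_lt_of_le (by linarith) (e2.ge.trans (ex_mono (env_bd ω) k _ _ fun l => ?_))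
    have := le_abs_self (pos l : ℝ)
    simp only [div_le_iff₀ q]
    split_ifs <;> linarith

end Pool.Agent.H.MP_0d3db7_pr
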